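import Pool.Agent.Lib.MP_ab8df0_nt.B.Auto2
import Pool.Agent.Lib.MP_ab8df0_nt.P.L2D

/-! Constants, proof tree and the result of the computation. -/

set_option maxRecDepth 100000

namespace Pool.Agent.Lib.MP_ab8df0_nt.T.B21a

open Pool.Agent.Lib.MP_ab8df0_nt.B Pool.Agent.Lib.MP_ab8df0_nt.P

def dl0 : List ℤ × ℕ := ([71, -24, 136, 110, -321, 64, 472, -207, -196, 172, -27, 11], 9)

def vs : Cs := [([0, 1], 1), ([], 1), ([], 1), ([], 1), ([], 1), ([], 1), ([], 1), ([], 1), 
  ([4, -45, 131, 366, -59, -285, 222, 331, -43, -50, 3, -5], 12),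
  ([2, -82, 131, 20, -145, 314, 52, -242, 193, 124, 1, 10], 18),
  ([-14, 57, -503, 444, 133, -1149, -112, 837, -601, -408, -1, -33], 12),
  ([46, -17, 1567, -1784, -209, 3205, 440, -2413, 1493, 1100, -7, 89], 36),
  ([93, 46, 1045, 2622, -832, -2311, 2109, 2585, -871, -609, 4, -56], 1),
  ([-65, -49, -809, -1861, 631, 1550, -1588, -1895, 602, 433, -4, 40], 1),
  ([-1806, -13845, -41172, -214518, -433806, -118173, 155886, -227850, -448752, -155697, -19506, -11418], 1),
  ([5, 55, 98, 724, 1805, 664, -743, 662, 1750, 629, 73, 47], 1),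
  ([-1], 1),
  ([32, 111, 612, 1864, 1582, -307, 40, 1926, 1608, 437, 86, 28], 1),
  ([-1809, 6318, -10440, 54090, 308763, 145620, -176724, 51984, 311643, 119016, 12096, 9126], 1),
  ([7392, 5928, 93036, 208653, -97206, -196212, 192480, 210189, -98148, -60576, -678, -5415], 1),
  ([-1626, -2253, -21489, -57783, -13056, 32775, -26139, -59001, -10056, 2253, -1209, 363], 1),
  ([-2166, -1173, -25827, -51366, 51870, 63267, -69609, -53628, 52872, 26481, 1203, 2244], 1),
  ([29408208462, -1431377839998, -1855211994909, -18605599020945, -53961070663656, -19628966547702, 24551625464091, -20136165122907, -55614446648370, -20113125346908, -2307513132531, -1505465227179], 1),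
  ([41372451, 23831496, 491538456, 999274806, -914896701, -1215534114, 1199952468, 986543064, -924528249, -469459962, -20041668, -39872898], 1),
  ([42, -70, 643, -336, -595, 910, 642, -938, 257, 324, -17, 26], 6)]

def M (t0 : ℤ) (k0 : ℕ) : List Hyp := [
  .disc 1 t0 k0,
  .eq 2 (.add (.mul (.num 2) (.inv (.add (.num 1) (.mul (.var 1) (.var 8))))) (.neg (.num 1))),
  .sqr 3 (.add (.num 1) (.mul (.num 3) (.sq (.var 2)))),
  .cls (.add (.num 1) (.mul (.num 3) (.sq (.var 2)))) [],
  .sqr 4 (.add (.num 1) (.var 3)),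
  .disc 5 0 1,
  .disc 6 1 1,
  .disc 7 0 1,
  .lin 4 (.sq (.add (.var 5) (.mul (.var 8) (.add (.var 6) (.mul (.var 8) (.var 7)))))) (.add (.mul (.var 9) (.add (.sq (.var 5)) (.mul (.num 6) (.mul (.var 6) (.var 7))))) (.add (.mul (.var 10) (.add (.mul (.num 2) (.mul (.var 5) (.var 6))) (.mul (.num 3) (.sq (.var 7))))) (.mul (.var 11) (.add (.mul (.num 2) (.mul (.var 5) (.var 7))) (.sq (.var 6)))))),
  .eq 3 (.add (.sq (.var 4)) (.neg (.num 1))),
  .cls (.add (.num 1) (.var 4)) [12, 13, 14, 15, 16, 17, 18, 19, 20, 21, 22, 23],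
  .out (.add (.num 1) (.var 4)) [12, 13, 14, 15, 16, 17, 18, 19, 20, 21, 22, 23] [true, false, false, true, false, false, true, false, false, false, false, false]]

def k0 : Cut := ⟨[], [], [], [[false, false, false, false, false, false, false, false, false, false, true, false], [false, false, true, false, false, false, false, false, false, false, false, false], [false, false, true, false, true, false, false, false, false, false, false, false], [false, true, false, false, false, false, false, false, false, false, false, false], [true, false, false, false, false, false, false, false, false, false, false, false], [true, false, false, false, false, true, false, false, false, false, false, false], [false, false, false, false, true, false, false, false, false, true, false, false], [true, false, false, false, false, true, true, false, false, false, false, false], [false, true, false, true, false, false, false, false, false, false, false, false], [false, false, true, false, false,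 false, false, true, false, false, false, false], [false, false, true, false, true, true, true, true, true, false, false, false], [false, true, false, false, true, false, true, false, false, false, false, true]], [[false, false, false, false, true, false, false, false, false, false, false, false], [false, false, false, true, false, false, false, false, false, false, false, false], [false, true, false, false, false, false, false, false, false, false, false, false], [false, false, false, true, false, false, false, false, true, false, false, false], [false, true, true, false, false, false, false, false, false, false, false, false], [false, false, false, false, true, true, false, false, false, false, false, false], [false, false, false, false, false, true, false, true, false, false, false, false], [false, true, false, false, false, false, false, false, false, true, false, false], [false, true, true, false, true, false, false, true, false, true, true, false], [false, true, true, false,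 false, false, true, false, false, false, false, false], [true, false, false, false, false, false, false, false, false, false, false, false], [false, true, true, true, false, true, false, true, false, false, false, true]]⟩

def A : List AH := [
  ]

theorem auto : (baseOk 7 vs && A.all (AH.ok (FDL2.pick [1, 2, 0]) 7 vs)) = true := by decide +kernel

def r0_0 : Tree := .set 8 [[ce (-2) 136 64 1 0xaaaaaaaaaaaaaaab], [ce (-2) 136 64 1 0xaaaaaaaaaaaaaaab], [ce (-2) 136 64 1 0xaaaaaaaaaaaaaaab]] (.set 9 [[ce (-1) 136 64 1 0x8e38e38e38e38e39], [ce (-1) 136 64 1 0x8e38e38e38e38e39], [ce (-1) 136 64 1 0x8e38e38e38e38e39]] (.set 10 [[ce (-2) 136 64 1 0xaaaaaaaaaaaaaaab], [ce (-2) 136 64 1 0xaaaaaaaaaaaaaaab], [ce (-2) 136 64 1 0xaaaaaaaaaaaaaaab]] (.set 11 [[ce (-2) 136 64 1 0x8e38e38e38e38e39], [ce (-2) 136 64 1 0x8e38e38e38e38e39], [ce (-2) 136 64 1 0x8e38e38e38e38e39]] (.set 12 [[], [], []] (.set 13 [[], [], []] (.set 14 [[], [], []] (.set 15 [[], [], []] (.set 16 [[], [], []] (.set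 17 [[], [], []] (.set 18 [[], [], []] (.set 19 [[], [], []] (.set 20 [[], [], []] (.set 21 [[], [], []] (.set 22 [[], [], []] (.set 23 [[], [], []] (.piv [] [] (.piv [12, 13, 14, 15, 16, 17, 18, 19, 20, 21, 22, 23] [[ce 0 136 1 0 0x0], [ce (-1) 136 5 4 0xb2ac7], [ce (-2) 136 5 4 0xa57c1], [ce (-1) 136 5 4 0x9b142], [ce 0 136 5 4 0x7063e], [ce (-1) 136 5 4 0xb0870], [ce (-2) 136 5 4 0xbb944, ce 0 136 1 0 0x0], [ce (-2) 136 5 4 0xa63e7, ce (-2) 136 5 3 0x5794], [ce (-2) 136 5 4 0x28450, ce (-2) 136 5 4 0x41655], [ce (-2) 136 5 4 0xbf944, ce (-2) 136 5 4 0x43195], [ce (-6) 136 5 4 0x637ac, ce (-6) 136 5 4 0xc751d], [ce (-4) 136 5 4 0xbffd6, ce (-4) 136 5 4 0xf477, ce 0 136 5 4 0x34713]] (.disc 25 (.set 26 [[ce 0 136 6 4 0xc0a10d], [ce 0 136 5 4 0xc4809], [ce 0 136 3 1 0x7]] (.disc 30 (.disc 31 (.disc 32 (.set 33 [[ce 0 136 5 4 0x41edc], [ce 0 136 5 4 0x24c06], [ce 0 136 4 1 0x9]] (.set 34 [[], [], []] (.split 25 (.set 26 [[ce 0 136 7 4 0x602a24d], [ce 0 136 7 4 0xb148009], [ce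 0 136 7 1 0x47]] (.newt 27 [[ce 1 136 6 4 0x2dd8cd, ce (-2) 136 4 4 0xf979], [ce 1 136 6 4 0x7e6d26, ce (-2) 136 4 4 0x3e4e], [ce 1 136 6 4 0x94b88b, ce (-2) 136 4 4 0x5b2b]] (.newt 29 [[ce 0 136 6 4 0x5991ec, ce (-1) 136 4 4 0x611c], [ce 0 136 6 4 0x4d16e1, ce (-1) 136 4 4 0x995f], [ce 0 136 6 4 0xb09029, ce (-1) 136 4 4 0x450d]] (.dead 35 38 [[], [], []] [true, false, false, false, true, false, true, false, false, false, false, false] [ce (-4) 136 5 3 0x4631, ce (-4) 136 5 4 0x3835b])))) (.set 26 [[ce 0 136 7 4 0xe10ba2d], [ce 0 136 7 4 0xf1a8039], [ce 0 136 6 1 0x2f]] (.newt 27 [[ce 1 136 4 4 0xbd71, ce (-2) 136 4 4 0x79d7], [ce 1 136 6 4 0x8d640e, ce (-2) 136 4 4 0x966a], [ce 1 136 6 4 0xc7f69f, ce (-2) 136 4 4 0x7969]] (.newt 29 [[ce 0 136 6 4 0x8b9ed4, ce (-1) 136 4 4 0x8d30], [ce 0 136 6 4 0xddd6fd, ce (-1) 136 4 4 0x3f1d], [ce 0 136 6 4 0xe31415, ce (-1) 136 4 4 0x6987]] (.conc 35 38 36 [[], [], []] [ce (-5) 136 4 4 0xcd39, ce (-5) 136 5 4 0x6ef30, ce (-1) 136 3 4 0x7b0])))))))))))))))))))))))))))))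

theorem r0 : run (FDL2.pick [1, 2, 0]).ds (FDL2.pick [1, 2, 0]).es [[ce (-1) 136 62 1 0x278345d60360a20d], [ce (-1) 136 62 1 0x201edd868c749dd3], []] vs.length (fullH 7 vs (M 2 3) A) r0_0 = true := by
  decide +kernel

theorem relth {K : Type} [Field K] [NumberField K] {a : K} {pl : List (Place K)} {ph : List (K →+* ℝ)}
    {w : List (IsDedekindDomain.HeightOneSpectrum (NumberField.RingOfIntegers K))}
    (hP : Pack K (FDL2.pick [1, 2, 0]) a pl ph w) : (cval a vs 8 * ((cval a vs 8) ^ 2)) = 3 := by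
  have h : ((cval a vs 8 * ((cval a vs 8) ^ 2)) + (-(((3 : ℤ) : K)))) = 0 :=
    hP.rel vs (.add (.mul (.var 8) (.sq (.var 8))) (.neg (.num 3))) (by decide +kernel)
  have h0 : cval a vs 0 = a := by simp [cval, vs, ev]
  try rw [h0] at h
  try push_cast at h
  linear_combination h

theorem relrho {K : Type} [Field K] [NumberField K] {a : K} {pl : List (Place K)} {ph : List (K →+* ℝ)}
    {w : List (IsDedekindDomain.HeightOneSpectrum (NumberField.RingOfIntegers K))}
    (hP : Pack K (FDL2.pick [1, 2, 0]) a pl ph w) : (((cval a vs 24) ^ 2) * ((((cval a vs 8) ^ 2) - 2) * (((((cval a vs 8) ^ 2) - 2)) ^ 2))) = 1 := by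
  have h : ((((cval a vs 24) ^ 2) * ((((cval a vs 8) ^ 2) + (-(((2 : ℤ) : K)))) * (((((cval a vs 8) ^ 2) + (-(((2 : ℤ) : K))))) ^ 2))) + (-(((1 : ℤ) : K)))) = 0 :=
    hP.rel vs (.add (.mul (.sq (.var 24)) (.mul (.add (.sq (.var 8)) (.neg (.num 2))) (.sq (.add (.sq (.var 8)) (.neg (.num 2)))))) (.neg (.num 1))) (by decide +kernel)
  have h0 : cval a vs 0 = a := by simp [cval, vs, ev]
  try rw [h0] at h
  try push_cast at h
  linear_combination h

theorem relsig {K : Type} [Field K] [NumberField K] {a : K} {pl : List (Place K)} {ph : List (K →+* ℝ)}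
    {w : List (IsDedekindDomain.HeightOneSpectrum (NumberField.RingOfIntegers K))}
    (hP : Pack K (FDL2.pick [1, 2, 0]) a pl ph w) : ((((cval a vs 8) ^ 2) - 2) * ((cval a vs 9) ^ 2)) = (((((cval a vs 8) ^ 2) - 2) - (3 * ((cval a vs 8) ^ 2))) + (2 * (cval a vs 24 * (((cval a vs 8) ^ 2) - 2)))) := by
  have h : (((((cval a vs 8) ^ 2) + (-(((2 : ℤ) : K)))) * ((cval a vs 9) ^ 2)) + (-((((((cval a vs 8) ^ 2) + (-(((2 : ℤ) : K)))) + (-((((3 : ℤ) : K) * ((cval a vs 8) ^ 2))))) + (((2 : ℤ) : K) * (cval a vs 24 * (((cval a vs 8) ^ 2) + (-(((2 : ℤ) : K)))))))))) = 0 :=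
    hP.rel vs (.add (.mul (.add (.sq (.var 8)) (.neg (.num 2))) (.sq (.var 9))) (.neg (.add (.add (.add (.sq (.var 8)) (.neg (.num 2))) (.neg (.mul (.num 3) (.sq (.var 8))))) (.mul (.num 2) (.mul (.var 24) (.add (.sq (.var 8)) (.neg (.num 2)))))))) (by decide +kernel)
  have h0 : cval a vs 0 = a := by simp [cval, vs, ev]
  try rw [h0] at h
  try push_cast at h
  linear_combination h

theorem relm1 {K : Type} [Field K] [NumberField K] {a : K} {pl : List (Place K)} {ph : List (K →+* ℝ)}
    {w : List (IsDedekindDomain.HeightOneSpectrum (NumberField.RingOfIntegers K))}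
    (hP : Pack K (FDL2.pick [1, 2, 0]) a pl ph w) : (cval a vs 9 * cval a vs 10) = (cval a vs 8 * (1 - cval a vs 24)) := by
  have h : ((cval a vs 9 * cval a vs 10) + (-((cval a vs 8 * (((1 : ℤ) : K) + (-(cval a vs 24))))))) = 0 :=
    hP.rel vs (.add (.mul (.var 9) (.var 10)) (.neg (.mul (.var 8) (.add (.num 1) (.neg (.var 24)))))) (by decide +kernel)
  have h0 : cval a vs 0 = a := by simp [cval, vs, ev]
  try rw [h0] at h
  try push_cast at h
  linear_combination h

theorem relm2 {K : Type} [Field K] [NumberField K] {a : K} {pl : List (Place K)} {ph : List (K →+* ℝ)}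
    {w : List (IsDedekindDomain.HeightOneSpectrum (NumberField.RingOfIntegers K))}
    (hP : Pack K (FDL2.pick [1, 2, 0]) a pl ph w) : ((((cval a vs 8) ^ 2) - 2) * (cval a vs 9 * cval a vs 11)) = (((cval a vs 8) ^ 2) * ((((cval a vs 8) ^ 2) + 4) - (cval a vs 24 * (((cval a vs 8) ^ 2) - 2)))) := by
  have h : (((((cval a vs 8) ^ 2) + (-(((2 : ℤ) : K)))) * (cval a vs 9 * cval a vs 11)) + (-((((cval a vs 8) ^ 2) * ((((cval a vs 8) ^ 2) + ((4 : ℤ) : K)) + (-((cval a vs 24 * (((cval a vs 8) ^ 2) + (-(((2 : ℤ) : K)))))))))))) = 0 :=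
    hP.rel vs (.add (.mul (.add (.sq (.var 8)) (.neg (.num 2))) (.mul (.var 9) (.var 11))) (.neg (.mul (.sq (.var 8)) (.add (.add (.sq (.var 8)) (.num 4)) (.neg (.mul (.var 24) (.add (.sq (.var 8)) (.neg (.num 2))))))))) (by decide +kernel)
  have h0 : cval a vs 0 = a := by simp [cval, vs, ev]
  try rw [h0] at h
  try push_cast at h
  linear_combination h

theorem core {K : Type} [Field K] [NumberField K] {a : K} {pl : List (Place K)} {ph : List (K →+* ℝ)}
    {w : List (IsDedekindDomain.HeightOneSpectrum (NumberField.RingOfIntegers K))}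
    (hP : Pack K (FDL2.pick [1, 2, 0]) a pl ph w) {G : Prop} (t g E xi a0 a1 a2 : K)
    (hdisc : Q2 3 (t - ((2 : ℤ) : K)))
    (hG : g = ((2 * ((1 + (t * cval a vs 8)))⁻¹) - 1))
    (hE : E ^ 2 = (1 + (3 * ((g) ^ 2))))
    (hclsE : IsSquare (1 + (3 * ((g) ^ 2))))
    (hxi : xi ^ 2 = (1 + E))
    (ha0 : Q2 1 (a0 - ((0 : ℤ) : K)))
    (ha1 : Q2 1 (a1 - ((1 : ℤ) : K)))
    (ha2 : Q2 1 (a2 - ((0 : ℤ) : K)))
    (hxi0 : (((a0 + (cval a vs 8 * (a1 + (cval a vs 8 * a2))))) ^ 2) * xi = ((cval a vs 9 * (((a0) ^ 2) + (6 * (a1 * a2)))) + ((cval a vs 10 * ((2 * (a0 * a1)) + (3 * ((a2) ^ 2)))) + (cval a vs 11 * ((2 * (a0 * a2)) + ((a1) ^ 2))))))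
    (hE1 : E = (((xi) ^ 2) - 1))
    (hcls : ∀ v : IsDedekindDomain.HeightOneSpectrum (NumberField.RingOfIntegers K), ((6 : ℕ) : NumberField.RingOfIntegers K) ∉ v.asIdeal →
      ∃ k : ℤ, v.valuation K (1 + xi) = WithZero.exp (2 * k))
    (hout0 : IsSquare ((1 + xi) * (ev a dl0.1 / (dl0.2 : K))) → G) :
    G := by
  refine hP.cover (fr := [t, g, E, xi, a0, a1, a2]) (M := M) (cs := [[ce (-1) 136 62 1 0x278345d60360a20d], [ce (-1) 136 62 1 0x201edd868c749dd3], []]) rfl auto
    (l := [(2, 3)]) (by decide) ?_ hdisc fun tt kk hq => ?_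
  · exact List.forall_mem_cons.2 ⟨⟨_, r0⟩, fun _ h => absurd h List.not_mem_nil⟩
  · refine List.forall_mem_cons.2 ⟨?_, List.forall_mem_cons.2 ⟨?_, List.forall_mem_cons.2 ⟨?_, List.forall_mem_cons.2 ⟨?_, List.forall_mem_cons.2 ⟨?_, List.forall_mem_cons.2 ⟨?_, List.forall_mem_cons.2 ⟨?_, List.forall_mem_cons.2 ⟨?_, List.forall_mem_cons.2 ⟨?_, List.forall_mem_cons.2 ⟨?_, List.forall_mem_cons.2 ⟨?_, List.forall_mem_cons.2 ⟨?_, fun _ h => absurd h List.not_mem_nil⟩⟩⟩⟩⟩⟩⟩⟩⟩⟩⟩⟩
    · exact hq
    · show g = ((((2 : ℤ) : K) * ((((1 : ℤ) : K) + (t * cval a vs 8)))⁻¹) + (-(((1 : ℤ) : K))))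
      try push_cast
      linear_combination hG
    · show E ^ 2 = (((1 : ℤ) : K) + (((3 : ℤ) : K) * ((g) ^ 2)))
      try push_cast
      linear_combination hE
    · exact span_of_isSquare (x := (((1 : ℤ) : K) + (((3 : ℤ) : K) * ((g) ^ 2)))) ((by push_cast; ring : (((1 : ℤ) : K) + (((3 : ℤ) : K) * ((g) ^ 2))) = (1 + (3 * ((g) ^ 2)))) ▸ hclsE)
    · show xi ^ 2 = (((1 : ℤ) : K) + E)
      try push_cast
      linear_combination hxi
    · exact ha0
    · exact ha1
    · exact ha2
    · show (((a0 + (cval a vs 8 * (a1 + (cval a vs 8 * a2))))) ^ 2) * xi = ((cval a vs 9 * (((a0) ^ 2) + (((6 : ℤ) : K) * (a1 * a2)))) + ((cval a vs 10 * ((((2 : ℤ) : K) * (a0 * a1)) + (((3 : ℤ) : K) * ((a2) ^ 2)))) + (cval a vs 11 * ((((2 : ℤ) : K) * (a0 * a2)) + ((a1) ^ 2)))))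
      try push_cast
      linear_combination hxi0
    · show E = (((xi) ^ 2) + (-(((1 : ℤ) : K))))
      try push_cast
      linear_combination hE1
    · exact fun h0 => hP.span_cut (nf := 7) (vs := vs) (x := (((1 : ℤ) : K) + xi)) (fr := [t, g, E, xi, a0, a1, a2]) rfl k0 (by decide +kernel) h0 ((by push_cast; ring : (((1 : ℤ) : K) + xi) = (1 + xi)) ▸ hcls) (fun _ h => absurd h List.not_mem_nil) (fun _ h => absurd h List.not_mem_nil)
    · exact fun h0 => hout0 ((by push_cast; ring : (((1 : ℤ) : K) + xi) = (1 + xi)) ▸ hP.out (nf := 7) (vs := vs) (x := (((1 : ℤ) : K) + xi)) (fr := [t, g, E, xi, a0, a1, a2]) rfl dl0 ([12725, -8343, 23941, -9103, -14658, 40552, 23185, -39033, 16703, 14953, -426, 1208], 69984) (by decide +kernel) h0)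

end Pool.Agent.Lib.MP_ab8df0_nt.T.B21a
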